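import Pool.Agent.NPG.Stmts

/-!
# NPG, row QML: coset spaces of metrizable groups by closed subgroups are metrizable
-/

set_option autoImplicit false

open Set Topology Filter
open scoped Pointwise Uniformity

namespace Pool.Agent.NPG.H77

section
variable {H : Type} [Group H] [TopologicalSpace H] [IsTopologicalGroup H] (L : Subgroup H)

/-- The map `(v, q) ↦ (q, v q)`. -/
def qphi (p : H × (H ⧸ L)) : (H ⧸ L) × (H ⧸ L) := (p.2, p.1 • p.2)

omit [IsTopologicalGroup H] in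
theorem mem_qphi (s : Set ((H ⧸ L) × (H ⧸ L))) :
    s ∈ Filter.map (qphi L) (𝓝 (1 : H) ×ˢ (⊤ : Filter (H ⧸ L))) ↔
      ∃ V ∈ 𝓝 (1 : H), ∀ v ∈ V, ∀ q : H ⧸ L, (q, v • q) ∈ s := by
  rw [Filter.mem_map, Filter.mem_prod_iff]
  constructor
  · rintro ⟨V, hV, W, hW, h⟩
    rw [Filter.mem_top] at hW
    subst hW
    exact ⟨V, hV, fun v hv q => h (Set.mk_mem_prod hv (Set.mem_univ q))⟩
  · rintro ⟨V, hV, h⟩
    refine ⟨V, hV, Set.univ, Filter.univ_mem, ?_⟩
    rintro ⟨v, q⟩ ⟨hv, _⟩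
    exact h v hv q

/-- The uniformity of the coset space. -/
@[reducible] def quni : UniformSpace (H ⧸ L) where
  uniformity := Filter.map (qphi L) (𝓝 (1 : H) ×ˢ (⊤ : Filter (H ⧸ L)))
  symm := by
    intro s hs
    rw [mem_qphi] at hs
    obtain ⟨V, hV, h⟩ := hs
    rw [Filter.mem_map, mem_qphi]
    refine ⟨V⁻¹, inv_mem_nhds_one H hV, fun v hv q => ?_⟩
    have h1 := h v⁻¹ hv (v • q)
    rw [inv_smul_smul] at h1
    exact h1
  comp := by
    intro s hs
    rw [mem_qphi] at hs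
    obtain ⟨V, hV, h⟩ := hs
    obtain ⟨W, hW, hWV⟩ := exists_nhds_one_split hV
    have ht : {p : (H ⧸ L) × (H ⧸ L) | ∃ w ∈ W, p.2 = w • p.1} ∈
        Filter.map (qphi L) (𝓝 (1 : H) ×ˢ (⊤ : Filter (H ⧸ L))) := by
      rw [mem_qphi]
      exact ⟨W, hW, fun v hv q => ⟨v, hv, rfl⟩⟩
    refine Filter.mem_of_superset (Filter.mem_lift' ht) ?_
    rintro ⟨q, q'⟩ ⟨r, ⟨w, hw, h1⟩, ⟨w', hw', h2⟩⟩
    have h3 : q' = (w' * w) • q := by
      rw [mul_smul]
      have h1' : r = w • q := h1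
      have h2' : q' = w' • r := h2
      rw [h2', h1']
    rw [h3]
    exact h _ (hWV w' hw' w hw) q
  nhds_eq_comap_uniformity := by
    intro q
    obtain ⟨h, rfl⟩ := QuotientGroup.mk_surjective q
    ext s
    rw [QuotientGroup.nhds_eq, Filter.mem_map, Filter.mem_comap]
    constructor
    · intro hs
      have hc : Tendsto (fun v : H => v * h) (𝓝 1) (𝓝 h) := by
        have h1 : Continuous fun v : H => v * h := continuous_mul_const h
        have h2 := h1.tendsto 1
        rwa [one_mul] at h2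
      refine ⟨{p : (H ⧸ L) × (H ⧸ L) | ∃ v : H, ((v * h : H) : H ⧸ L) ∈ s ∧ p.2 = v • p.1}, ?_,
        ?_⟩
      · rw [mem_qphi]
        exact ⟨_, hc hs, fun v hv q => ⟨v, hv, rfl⟩⟩
      · rintro q' ⟨v, hv, h1⟩
        have h2 : q' = v • ((h : H) : H ⧸ L) := h1
        rw [h2]
        exact hv
    · rintro ⟨t, ht, hts⟩
      rw [mem_qphi] at ht
      obtain ⟨V, hV, hVt⟩ := ht
      have hc : Tendsto (fun x : H => x * h⁻¹) (𝓝 h) (𝓝 1) := by
        have h1 : Continuous fun x : H => x * h⁻¹ := continuous_mul_const h⁻¹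
        have h2 := h1.tendsto h
        rwa [mul_inv_cancel] at h2
      filter_upwards [hc hV] with x hx
      apply hts
      have h1 := hVt (x * h⁻¹) hx ((h : H) : H ⧸ L)
      have h2 : (x * h⁻¹) • ((h : H) : H ⧸ L) = ((x : H) : H ⧸ L) := by
        rw [MulAction.Quotient.smul_coe, smul_eq_mul, inv_mul_cancel_right]
      rw [h2] at h1
      exact h1

end

theorem qml : QmlStmt := by
  intro H _ _ _ _ L hL
  have h1 : T1Space (H ⧸ L) := QuotientGroup.t1Space_iff.mpr hL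
  let u : UniformSpace (H ⧸ L) := quni L
  have h2 : (𝓤 (H ⧸ L)).IsCountablyGenerated := by
    have h3 : (Filter.map (qphi L) (𝓝 (1 : H) ×ˢ (⊤ : Filter (H ⧸ L)))).IsCountablyGenerated :=
      inferInstance
    exact h3
  have h3 : T0Space (H ⧸ L) := inferInstance
  exact UniformSpace.metrizableSpace

end Pool.Agent.NPG.H77
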